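import Mathlib
import Pool.Agent.CAE.All
import Pool.Agent.CAE.RedM
import Pool.Agent.CAE.V2
import Pool.Agent.CAE.Om8

/-!
# MP_4011c3_nt, Q1 and Q2: Chen's theorem for all but finitely many admissible pairs `(m, n)`, with a
lower bound of the expected order for the number of the solutions and few prime factors of
`p_q - q + 1`
-/

set_option autoImplicit false

namespace Pool.Agent.Results.MP_4011c3_nt.ChenAllPairs

open Finset Filter

/-- The pair `(m, n)` is admissible, as in the problem. -/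
def Adm (m n : ℕ) : Prop :=
  1 ≤ m ∧ 2 * m + 1 < n ∧ ((m = 1 ∧ n % 2 = 0) ∨ (m = 3 ∧ n % 6 ≠ 1) ∨ m = 2 ∨ 4 ≤ m)

open scoped Classical in
/-- The primes `p < n` such that `q = ⌊(n - p) / m⌋` is a prime or a product of two primes,
`q ^ 2 - 2` has at most `R` prime factors and `p_q - q + 1` has at most `8 log log n` prime factors,
counted with multiplicity.  Here `p_q` is the `q`-th prime; `Nat.nth Nat.Prime` starts with index
`0`. -/
noncomputable def Sol (R m n : ℕ) : Finset ℕ :=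
  (range n).filter (fun p => p.Prime ∧ 2 ≤ (n - p) / m ∧
    ArithmeticFunction.cardFactors ((n - p) / m) ≤ 2 ∧
    ArithmeticFunction.cardFactors (((n - p) / m) ^ 2 - 2) ≤ R ∧
    (ArithmeticFunction.cardFactors
      (Nat.nth Nat.Prime ((n - p) / m - 1) - (n - p) / m + 1) : ℝ) ≤
        8 * Real.log (Real.log n))

private theorem sub_sol {R m n : ℕ} (hR : 5 ≤ R) : EVN.SolP EVN.Phi m n ⊆ Sol R m n := by
  classical
  intro p hp
  rw [EVN.SolP, Finset.mem_filter] at hp
  obtain ⟨h1, h2, h3, h4, h5⟩ := hp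
  rw [Sol, mem_filter]
  refine ⟨h1, h2, h3.two_le, ?_, h4.2.trans hR, h5⟩
  rw [ArithmeticFunction.cardFactors_apply_prime h3]
  omega

private theorem log_tendsto : Tendsto (fun n : ℕ => Real.log n) atTop atTop :=
  Real.tendsto_log_atTop.comp tendsto_natCast_atTop_atTop

theorem result : ∃ (R : ℕ) (c : ℝ), 0 < c ∧
    {P : ℕ × ℕ | Adm P.1 P.2 ∧ ¬ ((Sol R P.1 P.2).Nonempty ∧
      ((P.1 : ℝ) ≤ (P.2 : ℝ) ^ (1 / 3 + c) →
        c * (P.2 / Real.log P.2 ^ 3) ≤ ((Sol R P.1 P.2).card : ℝ)) ∧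
      (12 * P.1 ≤ P.2 → (P.2 : ℝ) / Real.log P.2 ^ 5 ≤ ((Sol R P.1 P.2).card : ℝ)))}.Finite := by
  classical
  obtain ⟨R, c, ρ, hc, hρ, h⟩ := CAE.all_third
    (CAE.Rob.third3 CAE.thm_V2T CAE.thm_V2A CAE.thm_RedM) CAE.thm_Om8
  obtain ⟨c', hc', hc'c, hc'ρ⟩ : ∃ c' : ℝ, 0 < c' ∧ c' ≤ c ∧ c' ≤ ρ :=
    ⟨min c ρ, lt_min hc hρ, min_le_left _ _, min_le_right _ _⟩
  refine ⟨R + 5, c', hc', ?_⟩
  obtain ⟨n₁, h⟩ := eventually_atTop.1 h
  obtain ⟨n₂, h4⟩ := EVN.t4phi (1 / 12) (by norm_num)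
  obtain ⟨n₃, h5⟩ := eventually_atTop.1 ((log_tendsto.eventually_ge_atTop (1 / c + 1)).and
    (eventually_ge_atTop 2))
  refine Set.Finite.subset ((Set.finite_Iio (n₁ + n₂ + n₃)).prod
    (Set.finite_Iio (n₁ + n₂ + n₃))) ?_
  rintro ⟨m, n⟩ ⟨hadm, hno⟩
  simp only at hadm hno
  by_contra hnot
  have hm0 := hadm.2.1
  have hn : n₁ + n₂ + n₃ ≤ n := by
    by_contra hlt
    exact hnot (Set.mem_prod.2 ⟨by simp only [Set.mem_Iio]; omega,
      by simp only [Set.mem_Iio]; omega⟩)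
  obtain ⟨hL, hn2⟩ := h5 n (by omega)
  have hn2r : (2 : ℝ) ≤ n := by exact_mod_cast hn2
  have hn0 : (0 : ℝ) < n := by linarith
  have hL1 : 1 ≤ Real.log n := by
    have : 0 < 1 / c := by positivity
    linarith
  have hL0 : 0 < Real.log n := by linarith
  have hL3 : (0 : ℝ) < n / Real.log n ^ 3 := div_pos hn0 (pow_pos hL0 3)
  apply hno
  rcases le_or_gt (m : ℝ) ((n : ℝ) ^ (1 / 3 + ρ)) with hmle | hmgt
  · have h6 := h n (by omega) m hadm hmle (Sol (R + 5) m n) (by
      intro p hp hpn hq h2 hR hΩ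
      rw [Sol, mem_filter, mem_range]
      exact ⟨hpn, hp, hq, h2, hR.trans (by omega), hΩ⟩)
    have h7 : c' * (n / Real.log n ^ 3) ≤ ((Sol (R + 5) m n).card : ℝ) :=
      (mul_le_mul_of_nonneg_right hc'c hL3.le).trans h6.le
    refine ⟨?_, fun _ => h7, fun _ => ?_⟩
    · rw [← card_pos]
      have h8 : (0 : ℝ) < ((Sol (R + 5) m n).card : ℝ) := lt_trans (mul_pos hc hL3) h6
      exact_mod_cast h8
    · refine le_trans ?_ h6.le
      rw [mul_div_assoc', div_le_div_iff₀ (pow_pos hL0 5) (pow_pos hL0 3)]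
      have h8 : 1 ≤ c * Real.log n ^ 2 := by
        have h9 : 1 / c * c = 1 := by
          field_simp
        have h10 : 1 / c ≤ Real.log n := by linarith
        have h11 := mul_le_mul_of_nonneg_right h10 hc.le
        rw [h9] at h11
        have h12 : Real.log n * c ≤ Real.log n * c * Real.log n :=
          le_mul_of_one_le_right (mul_pos hL0 hc).le hL1
        calc (1 : ℝ) ≤ Real.log n * c * Real.log n := h11.trans h12
          _ = c * Real.log n ^ 2 := by ring
      have h9 : (0 : ℝ) ≤ n * Real.log n ^ 3 := by positivity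
      calc (n : ℝ) * Real.log n ^ 3 = n * Real.log n ^ 3 * 1 := (mul_one _).symm
        _ ≤ n * Real.log n ^ 3 * (c * Real.log n ^ 2) := mul_le_mul_of_nonneg_left h8 h9
        _ = c * n * Real.log n ^ 5 := by ring
  · have hge : (n : ℝ) ^ ((1 / 4 : ℝ) + 1 / 12) ≤ m := by
      refine le_trans ?_ hmgt.le
      apply Real.rpow_le_rpow_of_exponent_le (by linarith)
      linarith
    obtain ⟨h6, h7⟩ := h4 n m (by omega) hge hm0
    have hsub : EVN.SolP EVN.Phi m n ⊆ Sol (R + 5) m n := sub_sol (by omega)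
    refine ⟨h6.mono hsub, fun hle => ?_, fun h12 => (h7 h12).trans ?_⟩
    · exfalso
      have h8 : (n : ℝ) ^ (1 / 3 + c') ≤ (n : ℝ) ^ (1 / 3 + ρ) := by
        apply Real.rpow_le_rpow_of_exponent_le (by linarith)
        linarith
      linarith
    · exact_mod_cast card_le_card hsub

end Pool.Agent.Results.MP_4011c3_nt.ChenAllPairs
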