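import Mathlib
import Pool.Agent.EVN.Asm2
import Pool.Agent.EVN.Asm5
import Pool.Agent.E2P.Asm
import Pool.Agent.CAE.RedM
import Pool.Agent.CAE.V2
import Pool.Agent.CAE.Om8
import Pool.Agent.RVC.Asm

/-!
# MP_4011c3_nt, Q1 and Q2: every large `n`, every `m` such that `(m, n)` is admissible

Call `q` good for `R` and `n` if `q` is prime, `q ^ 2 - 2` has at most `R` prime factors and
`p_q - q + 1` has at most `8 log log n` prime factors.  Call `m` bad for `n` if `1 ≤ m`,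
`2 m + 1 < n` and there is no prime `p < n`, or, if `12 m ≤ n`, there are fewer than
`n / (log n) ^ 5` of them, such that `q = ⌊(n - p) / m⌋` is good for `5`.

There are `R ≥ 5`, `κ > 0` and `C` such that for all `ε > 0` and all `n ≥ n₀(ε)`:

(a) for every `m < (log n) ^ C` such that `(m, n)` is admissible there are at least
`κ n / (log n) ^ 3` numbers `a < n`, primes or products of two primes, such that
`q = ⌊(n - a) / m⌋` is good for `R`;

(b) for every `m ≥ (log n) ^ C` with `2 m + 1 < n` there is `a < n`, a prime or a prime times a prime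
`≤ (log n) ^ C`, such that `q = ⌊(n - a) / m⌋` is good for `5`; if `12 m ≤ n` there are at least
`n / (log n) ^ 8` such `a`;

(c) here `a` can be a prime apart from few `m`: every bad `m` is smaller than `n ^ (1 / 4 + ε)`, and
for `x ≥ (log n) ^ C` there are at most `x u ^ (-κ u)` bad `m ∈ (x, 2x]`, `u = log x / log log n`; so
at most `x ^ (1 - κ ε)` if `log x ≥ (log n) ^ ε`.
-/

set_option autoImplicit false

namespace Pool.Agent.Results.MP_4011c3_nt.EveryLargeNPower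

open Finset Filter

/-- The pair `(m, n)` is admissible, as in the problem. -/
def Adm (m n : ℕ) : Prop :=
  1 ≤ m ∧ 2 * m + 1 < n ∧ ((m = 1 ∧ n % 2 = 0) ∨ (m = 3 ∧ n % 6 ≠ 1) ∨ m = 2 ∨ 4 ≤ m)

/-- `q` is prime, `q ^ 2 - 2` has at most `R` prime factors and `p_q - q + 1` has at most
`8 log log n` prime factors, all counted with multiplicity (`p_q` is `Nat.nth Nat.Prime (q - 1)`). -/
def Good (R n q : ℕ) : Prop :=
  q.Prime ∧ ArithmeticFunction.cardFactors (q ^ 2 - 2) ≤ R ∧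
    (ArithmeticFunction.cardFactors (Nat.nth Nat.Prime (q - 1) - q + 1) : ℝ) ≤
      8 * Real.log (Real.log n)

/-- `a` is a prime, or the product of a prime `≤ B` and a prime. -/
def PB (B : ℝ) (a : ℕ) : Prop :=
  a.Prime ∨ ∃ p₁ p₂ : ℕ, p₁.Prime ∧ p₂.Prime ∧ (p₁ : ℝ) ≤ B ∧ a = p₁ * p₂

open scoped Classical in
/-- The primes `p < n` such that `q = ⌊(n - p) / m⌋` is good for `5` and `n`. -/
noncomputable def Sol (m n : ℕ) : Finset ℕ :=
  (range n).filter (fun p => p.Prime ∧ Good 5 n ((n - p) / m))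

open scoped Classical in
/-- The `a < n` with `PB B a` such that `q = ⌊(n - a) / m⌋` is good for `R` and `n`. -/
noncomputable def SolB (R : ℕ) (B : ℝ) (m n : ℕ) : Finset ℕ :=
  (range n).filter (fun a => PB B a ∧ Good R n ((n - a) / m))

open scoped Classical in
/-- The bad `m` for `n`: `1 ≤ m`, `2 m + 1 < n` and `Sol m n` is empty or (if `12 m ≤ n`) has fewer
than `n / (log n) ^ 5` elements. -/
noncomputable def Bad (n : ℕ) : Finset ℕ :=
  (Icc 1 n).filter (fun m => 2 * m + 1 < n ∧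
    (Sol m n = ∅ ∨ (12 * m ≤ n ∧ ((Sol m n).card : ℝ) < n / Real.log n ^ 5)))

private theorem good_iff (n q : ℕ) : Good 5 n q ↔ q.Prime ∧ Pool.Agent.EVN.Phi n q := by
  rw [Good, Pool.Agent.EVN.Phi, Nat.IsAtMostAlmostPrime]
  constructor
  · rintro ⟨h3, h4, h5⟩
    refine ⟨h3, ⟨?_, h4⟩, h5⟩
    have h5 := h3.two_le
    have h6 : 2 ^ 2 ≤ q ^ 2 := Nat.pow_le_pow_left h5 2
    omega
  · rintro ⟨h3, ⟨_, h4⟩, h5⟩
    exact ⟨h3, h4, h5⟩

private theorem sol_eq (m n : ℕ) : Sol m n = Pool.Agent.EVN.SolP Pool.Agent.EVN.Phi m n := by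
  classical
  ext p
  rw [Sol, Pool.Agent.EVN.SolP, mem_filter, mem_filter, good_iff]

private theorem pb_mono {B B' : ℝ} (h : B ≤ B') {a : ℕ} (ha : PB B a) : PB B' a := by
  rcases ha with ha | ⟨p₁, p₂, h1, h2, h3, h4⟩
  · exact Or.inl ha
  · exact Or.inr ⟨p₁, p₂, h1, h2, h3.trans h, h4⟩

private theorem solB_sub {B B' : ℝ} (h : B ≤ B') (m n : ℕ) :
    Pool.Agent.E2P.SolE Pool.Agent.EVN.Phi B m n ⊆ SolB 5 B' m n := by
  classical
  intro a ha
  rw [Pool.Agent.E2P.SolE, mem_filter] at ha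
  rw [SolB, mem_filter, good_iff]
  exact ⟨ha.1, pb_mono h ha.2.1, ha.2.2⟩

/-- a number with at most two prime factors is a prime or a product of two primes -/
private theorem pb_of_two {a : ℕ} (h2 : 2 ≤ a) (h : ArithmeticFunction.cardFactors a ≤ 2) {B : ℝ}
    (hB : (a : ℝ) ≤ B) : PB B a := by
  have hm : a.minFac.Prime := Nat.minFac_prime (by omega)
  obtain ⟨b, hb⟩ := Nat.minFac_dvd a
  have ha0 : a ≠ 0 := by omega
  have hb0 : b ≠ 0 := by
    rintro rfl
    rw [mul_zero] at hb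
    exact ha0 hb
  have hmle : a.minFac ≤ a := Nat.minFac_le (by omega)
  have hcard : ArithmeticFunction.cardFactors a = 1 + ArithmeticFunction.cardFactors b := by
    conv_lhs => rw [hb]
    rw [ArithmeticFunction.cardFactors_mul hm.ne_zero hb0,
      ArithmeticFunction.cardFactors_apply_prime hm]
  have hb1 : ArithmeticFunction.cardFactors b ≤ 1 := by omega
  rcases Nat.eq_or_lt_of_le hb1 with h1 | h0
  · refine Or.inr ⟨a.minFac, b, hm, ArithmeticFunction.cardFactors_eq_one_iff_prime.1 h1, ?_, hb⟩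
    refine le_trans ?_ hB
    exact_mod_cast hmle
  · have h3 : ArithmeticFunction.cardFactors b = 0 := by omega
    rw [ArithmeticFunction.cardFactors_eq_zero_iff_eq_zero_or_one] at h3
    rcases h3 with h3 | h3
    · exact absurd h3 hb0
    · left
      rw [h3, mul_one] at hb
      rw [hb]
      exact hm

/-- the part on all small `m` -/
private theorem partR : ∃ (R : ℕ) (c : ℝ), 5 ≤ R ∧ 0 < c ∧ ∀ C : ℕ, ∃ n₀ : ℕ, ∀ n ≥ n₀, ∀ m : ℕ,
    Adm m n → (m : ℝ) < Real.log n ^ C →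
      c * (n / Real.log n ^ 3) ≤ ((SolB R n m n).card : ℝ) := by
  classical
  obtain ⟨R, c, hc, h⟩ := RVC.all_rev (RVC.rc3 CAE.thm_V2A CAE.thm_RedM) CAE.thm_Om8
  refine ⟨R + 5, c, by omega, hc, fun C => ?_⟩
  obtain ⟨n₀, h⟩ := eventually_atTop.1 (h C)
  refine ⟨n₀, fun n hn m hm hmA => ?_⟩
  refine (h n hn m hm hmA.le (SolB (R + 5) n m n) ?_).le
  intro a ha2 han haO hq hR hΩ
  rw [SolB, mem_filter, mem_range]
  exact ⟨han, pb_of_two ha2 haO (by exact_mod_cast han.le), hq, hR.trans (by omega), hΩ⟩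

/-- the part on all `m ≥ (log n) ^ C` -/
private theorem partE : ∃ C n₀ : ℕ, ∀ C' ≥ C, ∀ n ≥ n₀, ∀ m : ℕ, Real.log n ^ C' ≤ m →
    2 * m + 1 < n → (SolB 5 (Real.log n ^ C') m n).Nonempty ∧
      (12 * m ≤ n → (n : ℝ) / Real.log n ^ 8 ≤ ((SolB 5 (Real.log n ^ C') m n).card : ℝ)) := by
  obtain ⟨C, n₁, h⟩ := Pool.Agent.E2P.finalE
  refine ⟨C, max 3 n₁, fun C' hC' n hn m hm hmn => ?_⟩
  have hn3 : 3 ≤ n := (le_max_left _ _).trans hn
  have hL : 1 ≤ Real.log n := by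
    rw [Real.le_log_iff_exp_le (by positivity)]
    have h3 : (3 : ℝ) ≤ n := by exact_mod_cast hn3
    linarith [Real.exp_one_lt_d9]
  have hpow : Real.log n ^ C ≤ Real.log n ^ C' := pow_le_pow_right₀ hL hC'
  obtain ⟨h1, h2⟩ := h n ((le_max_right _ _).trans hn) m (hpow.trans hm) hmn
  refine ⟨h1.mono (solB_sub hpow m n), fun h12 => (h2 h12).trans ?_⟩
  exact_mod_cast card_le_card (solB_sub hpow m n)

/-- `u log u ≥ (ε / 2) log x` if `log x ≥ (log n) ^ ε` and `log log log n ≤ (ε / 2) log log n` -/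
private theorem u_low {ε L X : ℝ} (hL : 1 < L) (hX : L ^ ε ≤ X)
    (h3 : Real.log (Real.log L) ≤ ε / 2 * Real.log L) :
    ε / 2 * X ≤ X / Real.log L * Real.log (X / Real.log L) := by
  have hL0 : 0 < L := by linarith
  have hLL : 0 < Real.log L := Real.log_pos hL
  have hX0 : 0 < X := lt_of_lt_of_le (Real.rpow_pos_of_pos hL0 _) hX
  have h4 : ε * Real.log L ≤ Real.log X := by
    have h5 := Real.log_le_log (Real.rpow_pos_of_pos hL0 _) hX
    rwa [Real.log_rpow hL0] at h5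
  have h6 : ε / 2 * Real.log L ≤ Real.log (X / Real.log L) := by
    rw [Real.log_div hX0.ne' hLL.ne']
    linarith
  calc ε / 2 * X = X / Real.log L * (ε / 2 * Real.log L) := by field_simp
    _ ≤ _ := mul_le_mul_of_nonneg_left h6 (by positivity)

/-- the range of `x` -/
private theorem ev_range (C : ℕ) (ε : ℝ) (hε : 0 < ε) : ∀ᶠ n : ℕ in atTop,
    C * Real.log (Real.log n) ≤ Real.log n ^ ε ∧
      Real.log (Real.log (Real.log n)) ≤ ε / 2 * Real.log (Real.log n) := by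
  have t1 : Tendsto (fun n : ℕ => Real.log n) atTop atTop :=
    Real.tendsto_log_atTop.comp tendsto_natCast_atTop_atTop
  have t2 : Tendsto (fun n : ℕ => Real.log (Real.log n)) atTop atTop :=
    Real.tendsto_log_atTop.comp t1
  have e1 : ∀ᶠ L : ℝ in atTop, C * Real.log L ≤ L ^ ε := by
    have h1 := (isLittleO_log_rpow_atTop hε).bound (show (0 : ℝ) < 1 / (C + 1) by positivity)
    filter_upwards [h1, eventually_ge_atTop 1] with L hL hL1
    have h2 : 0 ≤ Real.log L := Real.log_nonneg hL1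
    rw [Real.norm_of_nonneg h2, Real.norm_of_nonneg (by positivity),
      one_div_mul_eq_div, le_div_iff₀ (by positivity)] at hL
    linarith
  have e2 : ∀ᶠ y : ℝ in atTop, Real.log y ≤ ε / 2 * y := by
    have h1 := Real.isLittleO_log_id_atTop.bound (show (0 : ℝ) < ε / 2 by positivity)
    filter_upwards [h1, eventually_ge_atTop 1] with y hy hy1
    rw [Real.norm_of_nonneg (Real.log_nonneg hy1), id, Real.norm_of_nonneg (by linarith)] at hy
    exact hy
  filter_upwards [t1.eventually e1, t2.eventually e2] with n h1 h2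
  exact ⟨h1, h2⟩

open scoped Classical in
/-- the part on the bad `m` -/
private theorem partB : ∃ κ : ℝ, 0 < κ ∧ ∃ C : ℕ, 1 ≤ C ∧ ∀ ε : ℝ, 0 < ε → ∃ n₀ : ℕ, ∀ n ≥ n₀,
    (∀ m ∈ Bad n, (m : ℝ) < (n : ℝ) ^ (1 / 4 + ε)) ∧
    ∀ x : ℕ, 1 ≤ x → ∀ u : ℝ, u = Real.log x / Real.log (Real.log n) → C ≤ u →
      ((Bad n ∩ Ioc x (2 * x)).card : ℝ) ≤ x * Real.exp (-(κ * (u * Real.log u))) := by
  obtain ⟨κ, hκ, C, n₁, h⟩ := Pool.Agent.EVN.cor5 Pool.Agent.EVN.Phi Pool.Agent.EVN.densP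
    Pool.Agent.EVN.bigP
  refine ⟨κ, hκ, C + 1, by omega, fun ε hε => ?_⟩
  obtain ⟨n₂, h'⟩ := Pool.Agent.EVN.t4phi ε hε
  refine ⟨max n₁ n₂, fun n hn => ⟨fun m hm => ?_, fun x hx u hu hC => ?_⟩⟩
  · by_contra hcon
    rw [not_lt] at hcon
    obtain ⟨hm1, hmn, hm2⟩ := mem_filter.mp hm
    obtain ⟨h1, h2⟩ := h' n m (le_trans (le_max_right _ _) hn) hcon hmn
    rw [sol_eq] at hm2
    rcases hm2 with hm2 | ⟨h12, hlt⟩
    · rw [hm2] at h1
      exact not_nonempty_empty h1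
    · exact absurd hlt (not_lt.mpr (h2 h12))
  · have h2 := h n ((le_max_left _ _).trans hn) x hx u hu (le_trans (by
      push_cast
      linarith) hC)
    have hmem : ∀ m ∈ Bad n ∩ Ioc x (2 * x), m ∈ Ioc x (2 * x) ∧ 2 * m + 1 < n ∧
        (Pool.Agent.EVN.SolP Pool.Agent.EVN.Phi m n = ∅ ∨
          (12 * m ≤ n ∧ ((Pool.Agent.EVN.SolP Pool.Agent.EVN.Phi m n).card : ℝ) <
            n / Real.log n ^ 5)) := by
      intro m hm
      obtain ⟨ha, hb⟩ := mem_inter.mp hm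
      obtain ⟨_, hc, hd⟩ := mem_filter.mp ha
      rw [sol_eq] at hd
      exact ⟨hb, hc, hd⟩
    refine le_trans ?_ h2
    have hsub : Bad n ∩ Ioc x (2 * x) ⊆ (Ioc x (2 * x)).filter (fun m => 2 * m + 1 < n ∧
          (Pool.Agent.EVN.SolP Pool.Agent.EVN.Phi m n = ∅ ∨
            (12 * m ≤ n ∧ ((Pool.Agent.EVN.SolP Pool.Agent.EVN.Phi m n).card : ℝ) <
              n / Real.log n ^ 5))) := by
      intro m hm
      exact mem_filter.mpr (hmem m hm)
    exact_mod_cast card_le_card hsub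

/-- For every large `n` and every `m` with `(m, n)` admissible: `a` a prime or a product of two primes,
and `a` a prime apart from few `m < n ^ (1 / 4 + ε)`. -/
theorem result : ∃ (R : ℕ) (κ : ℝ), 5 ≤ R ∧ 0 < κ ∧ ∃ C : ℕ, ∀ ε : ℝ, 0 < ε → ∃ n₀ : ℕ, ∀ n ≥ n₀,
    (∀ m : ℕ, Adm m n → (m : ℝ) < Real.log n ^ C →
      κ * (n / Real.log n ^ 3) ≤ ((SolB R n m n).card : ℝ)) ∧
    (∀ m : ℕ, Real.log n ^ C ≤ m → 2 * m + 1 < n → (SolB 5 (Real.log n ^ C) m n).Nonempty ∧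
      (12 * m ≤ n → (n : ℝ) / Real.log n ^ 8 ≤ ((SolB 5 (Real.log n ^ C) m n).card : ℝ))) ∧
    (∀ m ∈ Bad n, (m : ℝ) < (n : ℝ) ^ (1 / 4 + ε)) ∧
    (∀ (x : ℕ) (u : ℝ), Real.log n ^ C ≤ x → u = Real.log x / Real.log (Real.log n) →
      ((Bad n ∩ Ioc x (2 * x)).card : ℝ) ≤ x * u ^ (-(κ * u))) ∧
    ∀ x : ℕ, Real.log n ^ ε ≤ Real.log x →
      ((Bad n ∩ Ioc x (2 * x)).card : ℝ) ≤ (x : ℝ) ^ (1 - κ * ε) := by
  obtain ⟨C₁, n₁, h₁⟩ := partE
  obtain ⟨κ₁, hκ₁, C₂, hC₂, h₂⟩ := partB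
  obtain ⟨R, c, hR, hc, h₃⟩ := partR
  obtain ⟨κ, hκ, hκ1, hκc⟩ : ∃ κ : ℝ, 0 < κ ∧ κ ≤ κ₁ / 2 ∧ κ ≤ c :=
    ⟨min (κ₁ / 2) c, lt_min (half_pos hκ₁) hc, min_le_left _ _, min_le_right _ _⟩
  obtain ⟨n₃, h₃⟩ := h₃ (max C₁ C₂)
  refine ⟨R, κ, hR, hκ, max C₁ C₂, fun ε hε => ?_⟩
  obtain ⟨n₂, h₂⟩ := h₂ ε hε
  obtain ⟨n₄, h₄⟩ := eventually_atTop.1 (ev_range C₂ ε hε)
  refine ⟨max (max 16 n₃) (max n₁ (max n₂ n₄)), fun n hn => ?_⟩
  have hn3 : 16 ≤ n := ((le_max_left _ _).trans (le_max_left _ _)).trans hn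
  have hnr : n₃ ≤ n := ((le_max_right _ _).trans (le_max_left _ _)).trans hn
  have hn1 : n₁ ≤ n := ((le_max_left _ _).trans (le_max_right _ _)).trans hn
  have hn2 : n₂ ≤ n :=
    ((le_max_left _ _).trans ((le_max_right _ _).trans (le_max_right _ _))).trans hn
  have hn4 : n₄ ≤ n :=
    ((le_max_right _ _).trans ((le_max_right _ _).trans (le_max_right _ _))).trans hn
  obtain ⟨r1, r2⟩ := h₄ n hn4
  have hL : 1 < Real.log n := by
    rw [Real.lt_log_iff_exp_lt (by positivity)]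
    have h3 : (16 : ℝ) ≤ n := by exact_mod_cast hn3
    linarith [Real.exp_one_lt_d9]
  have hLL : 0 < Real.log (Real.log n) := Real.log_pos hL
  obtain ⟨h3, h4⟩ := h₂ n hn2
  -- the second form of the bound
  have key : ∀ (x : ℕ) (u : ℝ), u = Real.log x / Real.log (Real.log n) → (C₂ : ℝ) ≤ u →
      1 ≤ x ∧ 1 ≤ u ∧ ((Bad n ∩ Ioc x (2 * x)).card : ℝ) ≤ x * u ^ (-(κ₁ * u)) := by
    intro x u hu hC
    have hC2 : (1 : ℝ) ≤ C₂ := by exact_mod_cast hC₂
    have hu1 : 1 ≤ u := hC2.trans hC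
    have hx : 1 ≤ x := by
      rcases Nat.eq_zero_or_pos x with h | h
      · rw [h, Nat.cast_zero, Real.log_zero, zero_div] at hu
        linarith
      · exact h
    refine ⟨hx, hu1, ?_⟩
    refine (h4 x hx u hu hC).trans (le_of_eq ?_)
    rw [Real.rpow_def_of_pos (by linarith)]
    congr 2
    ring
  refine ⟨fun m hm hmC => ?_, fun m hm hmn => h₁ (max C₁ C₂) (le_max_left _ _) n hn1 m hm hmn, h3,
    fun x u hC hu => ?_, fun x hx => ?_⟩
  · refine le_trans ?_ (h₃ n hnr m hm hmC)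
    exact mul_le_mul_of_nonneg_right hκc (by positivity)
  · obtain ⟨k1, k2, k3⟩ := key x u hu (by
      have q1 : Real.log n ^ C₂ ≤ x :=
        (pow_le_pow_right₀ hL.le (le_max_right C₁ C₂)).trans hC
      have q2 := Real.log_le_log (by positivity) q1
      rw [Real.log_pow] at q2
      rw [hu, le_div_iff₀ hLL]
      exact q2)
    refine k3.trans ?_
    refine mul_le_mul_of_nonneg_left ?_ (Nat.cast_nonneg _)
    refine Real.rpow_le_rpow_of_exponent_le k2 ?_
    nlinarith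
  · obtain ⟨k1, k2, k3⟩ := key x (Real.log x / Real.log (Real.log n)) rfl (by
      rw [le_div_iff₀ hLL]
      exact r1.trans hx)
    refine k3.trans ?_
    have hx0 : (0 : ℝ) < x := by exact_mod_cast k1
    have k4 := u_low hL hx r2
    have k5 : 0 ≤ Real.log x := Real.log_natCast_nonneg x
    have k6 : (Real.log x / Real.log (Real.log n)) ^
        (-(κ₁ * (Real.log x / Real.log (Real.log n)))) ≤ (x : ℝ) ^ (-(κ * ε)) := by
      rw [Real.rpow_def_of_pos (by linarith), Real.rpow_def_of_pos hx0]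
      apply Real.exp_le_exp.2
      have k7 := mul_le_mul_of_nonneg_left k4 hκ₁.le
      have k8 : κ * (ε * Real.log x) ≤ κ₁ / 2 * (ε * Real.log x) :=
        mul_le_mul_of_nonneg_right hκ1 (by positivity)
      nlinarith
    calc (x : ℝ) * (Real.log x / Real.log (Real.log n)) ^
          (-(κ₁ * (Real.log x / Real.log (Real.log n)))) ≤ x * (x : ℝ) ^ (-(κ * ε)) :=
        mul_le_mul_of_nonneg_left k6 hx0.le
      _ = (x : ℝ) ^ (1 - κ * ε) := by
        rw [sub_eq_add_neg, Real.rpow_add hx0, Real.rpow_one]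

end Pool.Agent.Results.MP_4011c3_nt.EveryLargeNPower
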