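import Mathlib
import Pool.Agent.TLL.Asm

/-!
# MP_4011c3_nt, Q2: at most `N ^ (1 - δ)` exceptional pairs `(m, n)` with `n ≤ N`

For every `ε > 0` there are `δ > 0` and `N₀` such that for all `N ≥ N₀` the number of the exceptional
pairs `(m, n)` with `n ≤ N` is at most `N ^ (1 - δ)`.  Here `(m, n)` is exceptional if it is admissible
and there is no prime `p < n`, or if `12 m ≤ n` and there are fewer than `n ^ (1 - ε)` of them, such that
`q = ⌊(n - p) / m⌋` is prime and `q ^ 2 - 2` has at most five prime factors.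
-/

set_option autoImplicit false

namespace Pool.Agent.Results.MP_4011c3_nt.PowerSaving

open Finset

/-- The pair `(m, n)` is admissible, as in the problem. -/
def Adm (m n : ℕ) : Prop :=
  1 ≤ m ∧ 2 * m + 1 < n ∧ ((m = 1 ∧ n % 2 = 0) ∨ (m = 3 ∧ n % 6 ≠ 1) ∨ m = 2 ∨ 4 ≤ m)

open scoped Classical in
/-- The primes `p < n` such that `q = ⌊(n - p) / m⌋` is prime and `q ^ 2 - 2` has at most five prime
factors, counted with multiplicity. -/
noncomputable def Sol (m n : ℕ) : Finset ℕ :=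
  (range n).filter (fun p => p.Prime ∧ ((n - p) / m).Prime ∧
    ArithmeticFunction.cardFactors (((n - p) / m) ^ 2 - 2) ≤ 5)

/-- The pair `(m, n)` is exceptional: it is admissible, and `Sol m n` is empty or (if `12 m ≤ n`) has
fewer than `n ^ (1 - ε)` elements. -/
def Bad (ε : ℝ) (m n : ℕ) : Prop :=
  Adm m n ∧ (Sol m n = ∅ ∨ (12 * m ≤ n ∧ ((Sol m n).card : ℝ) < (n : ℝ) ^ (1 - ε)))

open scoped Classical in
/-- The exceptional pairs `(m, n)` with `n ≤ N`. -/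
noncomputable def ExcPairs (ε : ℝ) (N : ℕ) : Finset (ℕ × ℕ) :=
  (Icc 1 N ×ˢ Icc 1 N).filter (fun p => Bad ε p.1 p.2)

theorem result : ∀ ε : ℝ, 0 < ε → ∃ (δ : ℝ) (N₀ : ℕ), 0 < δ ∧ ∀ N ≥ N₀,
    ((ExcPairs ε N).card : ℝ) ≤ (N : ℝ) ^ (1 - δ) := by
  classical
  obtain ⟨-, h1⟩ := Pool.Agent.TLL.fin
  intro ε hε
  obtain ⟨δ, N₁, hδ, h1⟩ := h1 ε hε
  refine ⟨δ, N₁, hδ, fun N hN => ?_⟩
  refine h1 N hN _ fun p hp => ?_
  obtain ⟨g1, g2⟩ := mem_filter.1 hp
  exact ⟨(mem_Icc.1 (mem_product.1 g1).2).2, g2⟩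

end Pool.Agent.Results.MP_4011c3_nt.PowerSaving
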