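import Mathlib
import Pool.Agent.TSX.Few
import Pool.Agent.TSX.Every5
import Pool.Agent.TSX.Pair2
import Pool.Agent.TLL.Asm
import Pool.Agent.SI.Asm
import Pool.Agent.EVN.Asm2
import Pool.Agent.EVN.Asm5

/-!
# MP_4011c3_nt, Q1 and Q2 at once: all numbers prime, the two constants replaced by shifts

`X = ⌊n / m⌋`.  `Quad P R m n h k` is the set of the primes `q` such that `q = ⌊(n - a) / m⌋` for an
`a < n` with the property `P`, `p_q - q + h` and `q ^ 2 - k` are prime, `q ^ 2 - 2` has at most `R` and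
`p_q - q + 1` at most `8 log log n` prime factors.  `Fine P R c ε e m n`: in all windows
`(M₁, M₁ + H₁]` and `(M₂, M₂ + H₂]` with `X ^ (1 / 4 + ε) ≤ H₁`, `M₁ + H₁ ≤ X ^ (1 - ε)`,
`X ≤ H₂`, `M₂ + H₂ ≤ X ^ (2 - ε)`, for at least `c H₁ / log log log X` of the `h` and, for each of
these, at least `c H₂ / log log log X` of the `k` the set `Quad P R m n h k` has at least
`c X / (log n) ^ e` elements.

(iii) For EVERY large `n` and EVERY admissible `m ≤ n ^ (1 - ε)` this holds if `P` is the property to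
be a prime or a product of two primes.  With `P` = prime the pairs `(m, n)` for which it fails are rare
(i), and for every large `n` they have `m < n ^ (1 / 4 + ε)` and there are few of them (ii): at most
`x u ^ (-κ u)` in `(x, 2x]`, `u = log x / log log n`, as soon as `x ≥ (log n) ^ C₀`.
-/

set_option autoImplicit false

namespace Pool.Agent.Results.MP_4011c3_nt.PrimeShifts

open Finset

/-- The pair `(m, n)` is admissible, as in the problem. -/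
def Adm (m n : ℕ) : Prop :=
  1 ≤ m ∧ 2 * m + 1 < n ∧ ((m = 1 ∧ n % 2 = 0) ∨ (m = 3 ∧ n % 6 ≠ 1) ∨ m = 2 ∨ 4 ≤ m)

/-- `a` is a prime, or the product of a prime `≤ B` and a prime. -/
def PB (B : ℝ) (a : ℕ) : Prop :=
  a.Prime ∨ ∃ p₁ p₂ : ℕ, p₁.Prime ∧ p₂.Prime ∧ (p₁ : ℝ) ≤ B ∧ a = p₁ * p₂

open scoped Classical in
/-- The primes `q` such that `q = ⌊(n - a) / m⌋` for an `a < n` with the property `P`, such that
`p_q - q + h` and `q ^ 2 - k` are prime, `q ^ 2 - 2` has at most `R` prime factors and `p_q - q + 1` has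
at most `8 log log n` prime factors, counted with multiplicity (`p_q` is `Nat.nth Nat.Prime (q - 1)`). -/
noncomputable def Quad (P : ℕ → Prop) (R m n h k : ℕ) : Finset ℕ :=
  (range n).filter (fun q => q.Prime ∧ (∃ a : ℕ, P a ∧ a < n ∧ (n - a) / m = q) ∧
    (Nat.nth Nat.Prime (q - 1) - q + h).Prime ∧ (q ^ 2 - k).Prime ∧
    ArithmeticFunction.cardFactors (q ^ 2 - 2) ≤ R ∧
    (ArithmeticFunction.cardFactors (Nat.nth Nat.Prime (q - 1) - q + 1) : ℝ) ≤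
      8 * Real.log (Real.log n))

open scoped Classical in
/-- In all windows `(M₁, M₁ + H₁]` with `X ^ (1 / 4 + ε) ≤ H₁`, `M₁ + H₁ ≤ X ^ (1 - ε)` and
`(M₂, M₂ + H₂]` with `X ≤ H₂`, `M₂ + H₂ ≤ X ^ (2 - ε)`, `X = ⌊n / m⌋`, at least
`c H₁ / log log log X` of the `h` are such that at least `c H₂ / log log log X` of the `k` are such
that `Quad P R m n h k` has at least `c X / (log n) ^ e` elements. -/
def Fine (P : ℕ → Prop) (R : ℕ) (c ε : ℝ) (e m n : ℕ) : Prop := ∀ M₁ H₁ M₂ H₂ : ℕ,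
  ((n / m : ℕ) : ℝ) ^ (1 / 4 + ε) ≤ H₁ → (M₁ : ℝ) + H₁ ≤ ((n / m : ℕ) : ℝ) ^ (1 - ε) →
  ((n / m : ℕ) : ℝ) ≤ H₂ → (M₂ : ℝ) + H₂ ≤ ((n / m : ℕ) : ℝ) ^ (2 - ε) →
  c * H₁ / Real.log (Real.log (Real.log ((n / m : ℕ) : ℝ))) ≤
    (((Ioc M₁ (M₁ + H₁)).filter (fun h =>
      c * H₂ / Real.log (Real.log (Real.log ((n / m : ℕ) : ℝ))) ≤
        (((Ioc M₂ (M₂ + H₂)).filter (fun k =>
          c * ((n / m : ℕ) : ℝ) / Real.log n ^ e ≤
            ((Quad P R m n h k).card : ℝ))).card : ℝ))).card : ℝ)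

/-- The pair `(m, n)` is exceptional (for primes `p` in place of `a`). -/
def Exc (c ε : ℝ) (e m n : ℕ) : Prop :=
  Adm m n ∧ (m : ℝ) ≤ (n : ℝ) ^ (1 - ε) ∧ ¬ Fine Nat.Prime 5 c ε e m n

open scoped Classical in
/-- Few pairs are exceptional, for every large `n` few `m < n ^ (1 / 4 + ε)` are exceptional, and with a
prime or a product of two primes in place of the prime `p` no pair with large `n` is. -/
theorem result : ∃ (R : ℕ) (κ : ℝ), 0 < κ ∧ ∃ C₀ : ℕ, ∀ ε : ℝ, 0 < ε → ∃ c : ℝ, 0 < c ∧ ∃ C : ℕ,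
    (∀ A : ℕ, ∃ N₀ : ℕ, ∀ N ≥ N₀,
      (((Icc 1 N ×ˢ Icc 1 N).filter (fun p : ℕ × ℕ => Exc c ε 5 p.1 p.2)).card : ℝ) ≤
        N / Real.log N ^ A ∧
      ∀ m : ℕ, 1 ≤ m →
        (m : ℝ) ^ (1 / 110 : ℝ) * ((Icc 1 N ×ˢ Icc 1 N).filter
          (fun p : ℕ × ℕ => m ≤ p.1 ∧ Exc c ε 5 p.1 p.2)).card ≤ N * Real.log N ^ C ∧
        (m : ℝ) * ((Icc 1 N).filter (fun n : ℕ => Exc c ε 5 m n)).card ≤ N * Real.log N ^ C) ∧
    ∃ n₀ : ℕ, ∀ n ≥ n₀, (∀ m : ℕ, Exc c ε 7 m n → (m : ℝ) < (n : ℝ) ^ (1 / 4 + ε)) ∧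
      (∀ (x : ℕ) (u : ℝ), u = Real.log x / Real.log (Real.log n) → (C₀ : ℝ) ≤ u →
        (((Ioc x (2 * x)).filter (fun m => Exc c ε 7 m n)).card : ℝ) ≤ x * u ^ (-(κ * u))) ∧
      ∀ m : ℕ, Adm m n → (m : ℝ) ≤ (n : ℝ) ^ (1 - ε) →
        ((m : ℝ) < Real.log n ^ C₀ → Fine (PB n) R c ε 5 m n) ∧
        (Real.log n ^ C₀ ≤ m → Fine (PB (Real.log n ^ C₀)) 5 c ε 10 m n) := by
  obtain ⟨κ, hκ, C₁, hE⟩ := Pool.Agent.TSX.every_exc5 Pool.Agent.SI.gap Pool.Agent.EVN.t4phi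
    Pool.Agent.EVN.final5
  obtain ⟨⟨a, ha, hM, hA, hH⟩, -⟩ := Pool.Agent.TLL.fin
  obtain ⟨R, C₂, -, hP⟩ := Pool.Agent.TSX.every_pair Pool.Agent.SI.gap
  refine ⟨R, κ, hκ, max C₁ C₂, fun ε hε => ?_⟩
  obtain ⟨c₂, hc₂, hE⟩ := hE ε hε
  obtain ⟨c₁, hc₁, C, hF⟩ := Pool.Agent.TSX.few Pool.Agent.SI.gap a ha hM hA hH ε hε
  obtain ⟨c₃, hc₃, hP⟩ := hP ε hε
  obtain ⟨n₃, hP⟩ := hP (max C₁ C₂) (le_max_right _ _)
  obtain ⟨c, hc, h1, h2, h3⟩ : ∃ c : ℝ, 0 < c ∧ c ≤ c₁ ∧ c ≤ c₂ ∧ c ≤ c₃ :=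
    ⟨min c₁ (min c₂ c₃), lt_min hc₁ (lt_min hc₂ hc₃), min_le_left _ _,
      (min_le_right _ _).trans (min_le_left _ _), (min_le_right _ _).trans (min_le_right _ _)⟩
  obtain ⟨n₂, hE⟩ := hE c hc.le h2
  refine ⟨c, hc, C, hF c h1, max n₂ n₃, fun n hn => ?_⟩
  obtain ⟨e1, e2⟩ := hE n ((le_max_left _ _).trans hn)
  refine ⟨e1, fun x u hu hC => e2 x u hu (le_trans ?_ hC), fun m hm hmn =>
    hP c h3 n ((le_max_right _ _).trans hn) m hm hmn⟩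
  exact_mod_cast le_max_left C₁ C₂

end Pool.Agent.Results.MP_4011c3_nt.PrimeShifts
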